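import Mathlib
import Pool.Agent.Helper213.Sidon.Cover
import Pool.Agent.Helper213.Sidon.Prime

set_option autoImplicit false

namespace Pool.Agent.Results.MP_ef4e97_co.CoverFour

open Filter

/-- The covering bound with an additive constant, by iterating `cover_step`. -/
theorem cover_rec (C : ℝ) (hC : 4 < C) :
    ∃ K : ℕ, ∀ n : ℕ, ∀ A : Finset ℝ, A.card = n →
      ∃ 𝒮 : Finset (Finset ℝ), (𝒮.card : ℝ) ≤ C * Real.sqrt (n : ℝ) + K ∧
        (∀ S ∈ 𝒮, ∀ a ∈ S, ∀ b ∈ S, ∀ c ∈ S, ∀ d ∈ S,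
          a + b = c + d → (a = c ∧ b = d) ∨ (a = d ∧ b = c)) ∧
        ∀ x ∈ A, ∃ S ∈ 𝒮, x ∈ S := by
  classical
  set η : ℝ := (C - 4) / (C + 4) with hη
  have hC4 : 0 < C + 4 := by linarith
  have hη0 : 0 < η := div_pos (by linarith) hC4
  have hη1 : η < 1 := by
    rw [hη, div_lt_one hC4]
    linarith
  have hCη : (1 + η) * (2 + C / 2) = C := by
    rw [hη]
    field_simp
    ring
  have hs : Tendsto (fun N : ℕ => Real.sqrt (N : ℝ)) atTop atTop :=
    Real.tendsto_sqrt_atTop.comp tendsto_natCast_atTop_atTop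
  have hev := (hs.eventually (Pool.Agent.Helper213.Sidon.prime_between η hη0)).and
    (hs.eventually (eventually_ge_atTop (max 2 (5 / η))))
  obtain ⟨N₁, hN₁⟩ := eventually_atTop.1 hev
  refine ⟨N₁, ?_⟩
  intro n
  induction n using Nat.strong_induction_on with
  | _ n ih =>
    intro A hA
    rcases Nat.lt_or_ge n N₁ with hn | hn
    · refine ⟨A.image fun a => ({a} : Finset ℝ), ?_, ?_, ?_⟩
      · have h1 : (A.image fun a => ({a} : Finset ℝ)).card ≤ N₁ :=
          Finset.card_image_le.trans (by omega)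
        have h2 : ((A.image fun a => ({a} : Finset ℝ)).card : ℝ) ≤ N₁ := by exact_mod_cast h1
        have h3 : 0 ≤ C * Real.sqrt (n : ℝ) := mul_nonneg (by linarith) (Real.sqrt_nonneg _)
        linarith
      · intro S hS a ha b hb c hc d hd _
        obtain ⟨x, _, rfl⟩ := Finset.mem_image.1 hS
        rw [Finset.mem_singleton] at ha hb hc hd
        left
        exact ⟨ha.trans hc.symm, hb.trans hd.symm⟩
      · intro x hx
        exact ⟨{x}, Finset.mem_image_of_mem _ hx, Finset.mem_singleton_self x⟩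
    · obtain ⟨⟨p, hp, hp1, hp2⟩, hx⟩ := hN₁ n hn
      set x : ℝ := Real.sqrt (n : ℝ) with hxdef
      have hx2 : 2 ≤ x := le_trans (le_max_left _ _) hx
      have hx5 : 5 / η ≤ x := le_trans (le_max_right _ _) hx
      have hx5' : 5 ≤ η * x := by
        rw [div_le_iff₀ hη0] at hx5
        linarith
      have hx0 : 0 < x := by linarith
      have hnx : (n : ℝ) = x * x := (Real.mul_self_sqrt (Nat.cast_nonneg n)).symm
      obtain ⟨𝒮, h𝒮c, h𝒮, B, hBA, hcov, hBc⟩ := Pool.Agent.Helper213.Sidon.cover_step A p hp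
      rw [hA, hnx] at hBc
      have hpp : x * (x - 1) ≤ (p : ℝ) * (p - 1) := by
        have h1 : x ≤ (p : ℝ) := hp1.le
        have h2 : x - 1 ≤ (p : ℝ) - 1 := by linarith
        exact mul_le_mul h1 h2 (by linarith) (by linarith)
      have hxx : 0 < x * (x - 1) := mul_pos hx0 (by linarith)
      have hB1 : (x * x) ^ 2 / (4 * ((p : ℝ) * (p - 1))) ≤ (x * x) ^ 2 / (4 * (x * (x - 1))) := by
        gcongr
      have hB2 : (x * x) ^ 2 / (4 * (x * (x - 1))) + 1 / 2 ≤ (1 + η) * (x * x) / 4 := by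
        have e1 : (x * x) ^ 2 / (4 * (x * (x - 1))) = x ^ 3 / (4 * (x - 1)) := by
          have : x - 1 ≠ 0 := by linarith
          field_simp
        rw [e1]
        have hx1 : 0 < 4 * (x - 1) := by linarith
        have e2 : x ^ 3 / (4 * (x - 1)) ≤ (1 + η) * (x * x) / 4 - 1 / 2 := by
          rw [div_le_iff₀ hx1]
          have e3 : x ^ 2 * 5 ≤ x ^ 2 * (η * x) := by gcongr
          nlinarith
        linarith
      have hBle : (B.card : ℝ) ≤ (1 + η) * (x * x) / 4 := by linarith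
      have hBlt : B.card < n := by
        have : (B.card : ℝ) < (n : ℝ) := by
          rw [hnx]
          nlinarith
        exact_mod_cast this
      obtain ⟨𝒯, h𝒯c, h𝒯, h𝒯cov⟩ := ih B.card hBlt B rfl
      have hsB : Real.sqrt (B.card : ℝ) ≤ (1 + η) / 2 * x := by
        rw [show (1 + η) / 2 * x = Real.sqrt (((1 + η) / 2 * x) ^ 2) from
          (Real.sqrt_sq (by positivity)).symm]
        apply Real.sqrt_le_sqrt
        refine hBle.trans ?_
        have : 0 ≤ η * (1 + η) * (x * x) := by positivity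
        nlinarith
      refine ⟨𝒮 ∪ 𝒯, ?_, ?_, ?_⟩
      · have h1 : ((𝒮 ∪ 𝒯).card : ℝ) ≤ 𝒮.card + 𝒯.card := by
          exact_mod_cast Finset.card_union_le 𝒮 𝒯
        have h2 : (𝒮.card : ℝ) ≤ 2 * p := by exact_mod_cast h𝒮c
        have h3 : C * Real.sqrt (B.card : ℝ) ≤ C * ((1 + η) / 2 * x) :=
          mul_le_mul_of_nonneg_left hsB (by linarith)
        have h4 : 2 * ((1 + η) * x) + C * ((1 + η) / 2 * x) = C * x := by
          calc 2 * ((1 + η) * x) + C * ((1 + η) / 2 * x) = ((1 + η) * (2 + C / 2)) * x := by ring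
            _ = C * x := by rw [hCη]
        linarith
      · intro S hS
        rcases Finset.mem_union.1 hS with h | h
        · exact h𝒮 S h
        · exact h𝒯 S h
      · intro y hy
        rcases hcov y hy with h | ⟨S, hS, hyS⟩
        · obtain ⟨S, hS, hyS⟩ := h𝒯cov y h
          exact ⟨S, Finset.mem_union_right _ hS, hyS⟩
        · exact ⟨S, Finset.mem_union_left _ hS, hyS⟩

/-- Every large finite set of `N` reals is covered by at most `(4 + ε) √N` Sidon sets. -/
theorem result :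
    ∀ ε : ℝ, 0 < ε → ∃ N₀ : ℕ, ∀ A : Finset ℝ, N₀ ≤ A.card →
      ∃ k : ℕ, (k : ℝ) ≤ (4 + ε) * Real.sqrt (A.card : ℝ) ∧
        ∃ S : Fin k → Finset ℝ,
          (∀ i, ∀ a ∈ S i, ∀ b ∈ S i, ∀ c ∈ S i, ∀ d ∈ S i,
              a + b = c + d → (a = c ∧ b = d) ∨ (a = d ∧ b = c)) ∧
          ∀ x ∈ A, ∃ i, x ∈ S i := by
  intro ε hε
  obtain ⟨K, hK⟩ := cover_rec (4 + ε / 2) (by linarith)
  have hs : Tendsto (fun N : ℕ => Real.sqrt (N : ℝ)) atTop atTop :=
    Real.tendsto_sqrt_atTop.comp tendsto_natCast_atTop_atTop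
  obtain ⟨N₀, hN₀⟩ := eventually_atTop.1 (hs.eventually (eventually_ge_atTop (2 * K / ε)))
  refine ⟨N₀, ?_⟩
  intro A hA
  obtain ⟨𝒮, h𝒮c, h𝒮, hcov⟩ := hK A.card A rfl
  have h1 := hN₀ A.card hA
  rw [div_le_iff₀ hε] at h1
  refine ⟨𝒮.card, ?_, fun i => (𝒮.equivFin.symm i : Finset ℝ), ?_, ?_⟩
  · linarith
  · intro i
    exact h𝒮 _ (𝒮.equivFin.symm i).2
  · intro x hx
    obtain ⟨S, hS, hxS⟩ := hcov x hx
    refine ⟨𝒮.equivFin ⟨S, hS⟩, ?_⟩
    simpa using hxS

end Pool.Agent.Results.MP_ef4e97_co.CoverFour
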